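import Pool.Agent.Work.MP_0909b4_al.NU.Main
import Pool.Agent.Work.MP_0909b4_al.NAInst

/-! A group that acts freely, properly and cocompactly by simplicial isometries on a CAT(0)
piecewise Euclidean 2-complex and is not automatic, hence not biautomatic. -/

namespace Pool.Agent.Results.MP_0909b4_al.NotAutomatic

open Pool.Agent.Work.MP_0909b4_al Pool.Agent.Work.MP_0909b4_al.NA

theorem result : ∃ (K : PECx) (_ : MetricSpace K.Pt) (G : Type) (_ : Group G)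
    (_ : MulAction G K.Pt), (∃ σ ∈ K.faces, σ.card = 3) ∧ (∀ x y : K.Pt, ∃ r, K.Chain x y r) ∧
    (∀ x y : K.Pt, dist x y = K.d x y) ∧ IsCAT0 K.Pt ∧
    (∀ (g : G) (x y : K.Pt), dist (g • x) (g • y) = dist x y) ∧
    (∀ g : G, ∃ φ : K.V ≃ K.V, ∀ (x : K.Pt) (v : K.V), (g • x).co (φ v) = x.co v) ∧
    (∀ (g : G) (x : K.Pt), g • x = x → g = 1) ∧
    (∀ x : K.Pt, ∃ r > 0, {g : G | ∃ y ∈ Metric.ball x r, g • y ∈ Metric.ball x r}.Finite) ∧
    (∃ C : Set K.Pt, IsCompact C ∧ ∀ x : K.Pt, ∃ g : G, g • x ∈ C) ∧ Group.FG G ∧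
    ¬IsAutomatic G ∧ ¬IsBiautomatic G :=
  nu_main Dat.theSub

end Pool.Agent.Results.MP_0909b4_al.NotAutomatic
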