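import Pool.Agent.Work.MP_0909b4_al.Main

/-! Every CAT(0) tubular group is biautomatic. -/

namespace Pool.Agent.Results.MP_0909b4_al.Tubular

open Pool.Agent.Work.MP_0909b4_al

theorem result {V ι : Type} [Finite V] [Finite ι] [Nonempty ι] (T : Tub V ι)
    (hu : ∀ i, T.u i ≠ 0) (A B C : V → ℝ) (hA : ∀ x, 0 < A x) (hD : ∀ x, B x ^ 2 < A x * C x)
    (hQ : ∀ i, A (T.o i) * (T.u i).1 ^ 2 + 2 * B (T.o i) * (T.u i).1 * (T.u i).2 +
      C (T.o i) * (T.u i).2 ^ 2 = A (T.d i) * (T.w i).1 ^ 2 +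
        2 * B (T.d i) * (T.w i).1 * (T.w i).2 + C (T.d i) * (T.w i).2 ^ 2) (x : V) :
    IsBiautomatic (T.pi1 x) := by
  obtain ⟨-, ⟨E⟩⟩ := exists_des T hu A B C hA hD hQ
  exact T.biautomatic E x

end Pool.Agent.Results.MP_0909b4_al.Tubular
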